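import Pool.Agent.W34.GB.Stm
import Pool.Agent.H387R3.QG.B0s
import Pool.Agent.H337R2.Bt2

/-!
# The line formula for triple poles and two shifts
-/

open MeasureTheory Filter Topology Complex Polynomial Pool.Agent.H337R2
open Pool.Agent.W34.GB

namespace Pool.Agent.W196.GZ

noncomputable section

open Pool.Agent.H387R3.QG

/-- balanced finite sums -/
def fb (b : ℚ) (i k : ℕ) : ℚ :=
  ∑ j ∈ Finset.range k, 1 / ((j : ℚ) + b) ^ i - ∑ j ∈ Finset.Ico 1 k, 1 / (j : ℚ) ^ i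

lemma ker_eq (b y : ℝ) : ker b y = kerb b y := rfl

/-- adding terms to `fb` -/
lemma fb_add (b : ℚ) (i : ℕ) {k : ℕ} (hk : 1 ≤ k) (T : ℕ) :
    fb b i (k + T) = fb b i k + ∑ l ∈ Finset.range T,
      (1 / ((l : ℚ) + b + k) ^ i - 1 / ((l : ℚ) + k) ^ i) := by
  induction T with
  | zero => simp
  | succ T ih =>
    rw [Finset.sum_range_succ, ← add_assoc (fb b i k), ← ih, ← add_assoc k T 1]
    unfold fb
    rw [Finset.sum_range_succ, Finset.sum_Ico_succ_top (by omega : 1 ≤ k + T)]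
    have e1 : (((k + T : ℕ) : ℚ) + b) = ((T : ℚ) + b + k) := by push_cast; ring
    have e2 : (((k + T : ℕ) : ℚ)) = ((T : ℚ) + k) := by push_cast; ring
    rw [e1, e2]
    ring

/-- the limit of `fb` and the integrals -/
lemma lam {b : ℚ} (hb0 : 0 < (b : ℝ)) (hb1 : (b : ℝ) < 1) {i : ℕ} (hi : 1 ≤ i) : ∃ Λ : ℂ,
    Tendsto (fun m : ℕ => ((fb b i m : ℚ) : ℂ)) atTop (𝓝 Λ) ∧
    ∀ M : ℕ, 2 ≤ M → Λ - ((fb b i M : ℚ) : ℂ) =
      -∫ y : ℝ, li ((M : ℝ) - 1 / 2 + (b : ℝ) / 2) y ^ i * ((ker (b : ℝ) y : ℝ) : ℂ) := by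
  have key : ∀ M : ℕ, 2 ≤ M → Tendsto (fun m : ℕ => ((fb b i m : ℚ) : ℂ)) atTop
      (𝓝 (((fb b i M : ℚ) : ℂ) - ∫ y : ℝ, li ((M : ℝ) - 1 / 2 + (b : ℝ) / 2) y ^ i * ((ker (b : ℝ) y : ℝ) : ℂ))) := by
    intro M hM
    have hM' : (2 : ℝ) ≤ M := by exact_mod_cast hM
    have hA : (1 : ℝ) ≤ (M : ℝ) - 1 / 2 + (b : ℝ) / 2 := by linarith
    have h1 := (tail_hasSum hb0 hb1 hA hi).tendsto_sum_nat
    have h2 := h1.const_add ((fb b i M : ℚ) : ℂ)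
    have h3 : ∀ L : ℕ, ((fb b i M : ℚ) : ℂ) + ∑ l ∈ Finset.range L,
        (1 / ((((M : ℝ) - 1 / 2 + (b : ℝ) / 2 : ℝ) : ℂ) + l + 1 / 2 + (((b : ℝ)) : ℂ) / 2) ^ i -
          1 / ((((M : ℝ) - 1 / 2 + (b : ℝ) / 2 : ℝ) : ℂ) + l + 1 / 2 - (((b : ℝ)) : ℂ) / 2) ^ i) =
        ((fb b i (L + M) : ℚ) : ℂ) := by
      intro L
      rw [add_comm L M, fb_add b i (by omega : 1 ≤ M) L]
      push_cast
      congr 1
      apply Finset.sum_congr rfl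
      intro l _
      congr 2
      · congr 1; ring
      · congr 1; ring
    have h4 : Tendsto (fun L : ℕ => ((fb b i (L + M) : ℚ) : ℂ)) atTop
        (𝓝 (((fb b i M : ℚ) : ℂ) - ∫ y : ℝ, li ((M : ℝ) - 1 / 2 + (b : ℝ) / 2) y ^ i * ((ker (b : ℝ) y : ℝ) : ℂ))) := by
      have h5 := h2.congr h3
      simp only [ker_eq]
      rw [sub_eq_add_neg]
      exact h5
    exact (tendsto_add_atTop_iff_nat M).1 h4
  refine ⟨_, key 2 le_rfl, fun M hM => ?_⟩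
  have h := tendsto_nhds_unique (key 2 le_rfl) (key M hM)
  rw [h]
  ring

/-- the value of the series -/
def Lth (b : ℝ) (i : ℕ) : ℝ := ∑' j : ℕ, (1 / ((j : ℝ) + b) ^ i - 1 / ((j : ℝ) + 1) ^ i)

lemma sm {b : ℝ} (hb : 0 < b) {i : ℕ} (hi : 2 ≤ i) : Summable (fun j : ℕ => 1 / ((j : ℝ) + b) ^ i) := by
  have s1 : Summable (fun j : ℕ => 1 / ((j : ℝ) + 1) ^ i) := summable_zr hi
  rw [← summable_nat_add_iff 1]
  refine Summable.of_nonneg_of_le (fun j => by positivity) (fun j => ?_) s1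
  apply one_div_le_one_div_of_le (by positivity)
  apply pow_le_pow_left₀ (by positivity)
  push_cast
  linarith

lemma theta_lim {b : ℚ} (hb0 : 0 < (b : ℝ)) {i : ℕ} (hi : 2 ≤ i) :
    Tendsto (fun m : ℕ => ((fb b i m : ℚ) : ℂ)) atTop (𝓝 ((Lth (b : ℝ) i : ℝ) : ℂ)) := by
  have s1 : Summable (fun j : ℕ => 1 / ((j : ℝ) + 1) ^ i) := summable_zr hi
  have s2 := sm hb0 hi
  have s3 := (s2.sub s1).hasSum.tendsto_sum_nat
  have s4 : Tendsto (fun n : ℕ => 1 / ((n : ℝ) + (b : ℝ)) ^ i) atTop (𝓝 0) := s2.tendsto_atTop_zero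
  have s5 := s3.add s4
  rw [add_zero] at s5
  have s6 : Tendsto (fun n : ℕ => ((fb b i (n + 1) : ℚ) : ℝ)) atTop (𝓝 (Lth (b : ℝ) i)) := by
    refine s5.congr fun n => ?_
    unfold fb
    rw [Finset.sum_sub_distrib]
    rw [Finset.sum_range_succ, Finset.sum_Ico_eq_sum_range, Nat.add_sub_cancel]
    push_cast
    have e : ∑ x ∈ Finset.range n, 1 / ((x : ℝ) + 1) ^ i = ∑ x ∈ Finset.range n, 1 / (1 + (x : ℝ)) ^ i := by
      apply Finset.sum_congr rfl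
      intro x _
      rw [add_comm]
    rw [e]
    ring
  have s7 := (tendsto_add_atTop_iff_nat (f := fun n : ℕ => ((fb b i n : ℚ) : ℝ)) 1).1 s6
  have s8 := (Complex.continuous_ofReal.tendsto _).comp s7
  refine s8.congr fun n => ?_
  simp

lemma th_split {b : ℝ} (hb : 0 < b) (w : ℝ) {i : ℕ} (hi : 2 ≤ i) :
    ∑' j : ℕ, (1 / ((j : ℝ) + b) ^ i + w / ((j : ℝ) + 1 / 2) ^ i - (1 + w) / ((j : ℝ) + 1) ^ i) =
      Lth b i + w * Lth (1 / 2) i := by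
  have s1 : Summable (fun j : ℕ => 1 / ((j : ℝ) + 1) ^ i) := summable_zr hi
  have s2 := sm hb hi
  have s3 := sm (by norm_num : (0 : ℝ) < 1 / 2) hi
  unfold Lth
  rw [← tsum_mul_left, ← (s2.sub s1).tsum_add ((s3.sub s1).mul_left w)]
  apply tsum_congr
  intro j
  ring

/-- simple fractions at a complex point -/
theorem pf3 (s : Finset ℕ) (P : ℚ[X]) (hdeg : P.degree < (QQ s m3).degree) (z : ℂ)
    (hz : ∀ k ∈ s, z + (k : ℂ) ≠ 0) :
    aeval z P / aeval z (QQ s m3) =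
      ∑ k ∈ s, ∑ i ∈ Finset.Icc 1 3, ((pa s m3 P k i : ℚ) : ℂ) * ((z + k)⁻¹) ^ i := by
  have hQ : aeval z (QQ s m3) ≠ 0 := by
    unfold QQ
    rw [map_prod, Finset.prod_ne_zero_iff]
    intro m hm
    rw [map_pow, map_add, aeval_X, aeval_C]
    apply pow_ne_zero
    have := hz m hm
    simpa using this
  rw [div_eq_iff hQ]
  conv_lhs => rw [pf_identity s m3 P hdeg]
  rw [map_sum, Finset.sum_mul]
  apply Finset.sum_congr rfl
  intro k hk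
  rw [map_sum, Finset.sum_mul]
  refine Finset.sum_nbij' (fun j => 3 - j) (fun i => 3 - i) ?_ ?_ ?_ ?_ ?_
  · intro j hj
    have : j < 3 := Finset.mem_range.1 hj
    exact Finset.mem_Icc.2 ⟨by omega, by omega⟩
  · intro i hi
    have := Finset.mem_Icc.1 hi
    exact Finset.mem_range.2 (show 3 - i < 3 by omega)
  · intro j hj
    have : j < 3 := Finset.mem_range.1 hj
    show 3 - (3 - j) = j
    omega
  · intro i hi
    have := Finset.mem_Icc.1 hi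
    show 3 - (3 - i) = i
    omega
  · intro j hj
    have hj5 : j < 3 := Finset.mem_range.1 hj
    rw [QQ_erase s m3 hk, map_mul, map_mul, map_mul, map_pow, map_pow, map_add, aeval_X, aeval_C,
      aeval_C]
    have e1 : (algebraMap ℚ ℂ) (k : ℚ) = (k : ℂ) := by simp
    have e2 : (algebraMap ℚ ℂ) (pfc s m3 P k j) = ((pfc s m3 P k j : ℚ) : ℂ) := rfl
    have e4 : pa s m3 P k (3 - j) = pfc s m3 P k j := by
      unfold pa
      have h5 : 3 - j ≤ m3 k := Nat.sub_le 3 j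
      rw [if_pos h5]
      congr 1
      show 3 - (3 - j) = j
      omega
    rw [e1, e2, e4]
    have hzk := hz k hk
    have e3 : (z + (k : ℂ)) ^ m3 k = (z + k) ^ (3 - j) * (z + k) ^ j := by
      rw [← pow_add, Nat.sub_add_cancel hj5.le]
      rfl
    rw [e3, inv_pow]
    field_simp

lemma deg2 {h : ℕ} (P : ℚ[X]) (hP : P.natDegree + 2 ≤ 6 * h) :
    P.natDegree + 2 ≤ (QQ (sN h) m3).natDegree := by
  have h1 : (QQ (sN h) m3).natDegree = 6 * h := by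
    rw [QQ_natDegree]
    unfold m3 sN
    rw [Finset.sum_const, Nat.card_Icc, smul_eq_mul]
    omega
  omega

lemma deg1 {h : ℕ} (P : ℚ[X]) (hP : P.natDegree + 2 ≤ 6 * h) :
    P.degree < (QQ (sN h) m3).degree :=
  Polynomial.degree_lt_degree (by have := deg2 P hP; omega)

/-- the value at a nonnegative rational -/
lemma zone {h : ℕ} (P : ℚ[X]) (hP : P.natDegree + 2 ≤ 6 * h) (x : ℚ) (hx : 0 ≤ x) :
    Rq h x * P.eval x = ∑ k ∈ sN h, ∑ i ∈ Finset.Icc 1 3, pa (sN h) m3 P k i / (x + k) ^ i := by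
  have hd := deg1 P hP
  rw [← Rv_eq (sN h) m3 P hd x (fun m hm => by
      have h1 : (1 : ℚ) ≤ m := by exact_mod_cast (Finset.mem_Icc.1 hm).1
      have : 0 < x + m := by linarith
      exact this.ne') 3 (fun _ _ => le_rfl)]
  rw [Rv_val]
  have h2 : ∏ m ∈ sN h, ((x + m)⁻¹) ^ m3 m = ((∏ k ∈ Finset.Icc 1 (2 * h), (x + k)) ^ 3)⁻¹ := by
    unfold sN m3
    rw [Finset.prod_pow, Finset.prod_inv_distrib, inv_pow]
  rw [h2]
  unfold Rq
  ring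

lemma fw_eq (σ K : ℕ) (w : ℚ) (i k : ℕ) : fw σ K w i k =
    fb ((σ : ℚ) / 4) i (k + K) - ∑ l ∈ Finset.range K, 1 / ((l : ℚ) + (σ : ℚ) / 4 + k) ^ i +
    w * (fb (1 / 2) i (k + K) - ∑ l ∈ Finset.range K, 1 / ((l : ℚ) + 1 / 2 + k) ^ i) := by
  unfold fw fb
  rw [Finset.sum_range_add, Finset.sum_range_add]
  have e1 : ∀ c : ℚ, ∑ x ∈ Finset.range K, 1 / (((k + x : ℕ) : ℚ) + c) ^ i =
      ∑ l ∈ Finset.range K, 1 / ((l : ℚ) + c + k) ^ i := by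
    intro c
    apply Finset.sum_congr rfl
    intro x _
    push_cast
    congr 2
    ring
  rw [e1, e1]
  ring

/-- the linear form and the zone -/
lemma real_form {h : ℕ} (σ : ℕ) (w u v : ℚ) (P : ℚ[X]) (hP : P.natDegree + 2 ≤ 6 * h) :
    NL h σ w u v P = (∑ l ∈ Finset.range (W34.GB.KK h), (Rq h ((l : ℚ) + (σ : ℚ) / 4) * P.eval ((l : ℚ) + (σ : ℚ) / 4) +
      w * (Rq h ((l : ℚ) + 1 / 2) * P.eval ((l : ℚ) + 1 / 2)))) -
      ∑ k ∈ sN h, ∑ i ∈ Finset.Icc 1 3, pa (sN h) m3 P k i * fb ((σ : ℚ) / 4) i (k + W34.GB.KK h) -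
      w * ∑ k ∈ sN h, ∑ i ∈ Finset.Icc 1 3, pa (sN h) m3 P k i * fb (1 / 2) i (k + W34.GB.KK h) +
      u * (∑ k ∈ sN h, pa (sN h) m3 P k 2) + v * (∑ k ∈ sN h, pa (sN h) m3 P k 3) := by
  have hz : ∀ (c : ℚ), 0 ≤ c → ∑ l ∈ Finset.range (W34.GB.KK h), (Rq h ((l : ℚ) + c) * P.eval ((l : ℚ) + c)) =
      ∑ k ∈ sN h, ∑ i ∈ Finset.Icc 1 3, pa (sN h) m3 P k i * ∑ l ∈ Finset.range (W34.GB.KK h), 1 / ((l : ℚ) + c + k) ^ i := by
    intro c hc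
    have h1 : ∀ l ∈ Finset.range (W34.GB.KK h), Rq h ((l : ℚ) + c) * P.eval ((l : ℚ) + c) =
        ∑ k ∈ sN h, ∑ i ∈ Finset.Icc 1 3, pa (sN h) m3 P k i / (((l : ℚ) + c) + k) ^ i := by
      intro l _
      exact zone P hP _ (by positivity)
    rw [Finset.sum_congr rfl h1, Finset.sum_comm]
    apply Finset.sum_congr rfl
    intro k _
    rw [Finset.sum_comm]
    apply Finset.sum_congr rfl
    intro i _
    rw [Finset.mul_sum]
    apply Finset.sum_congr rfl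
    intro l _
    ring
  rw [Finset.sum_add_distrib, ← Finset.mul_sum, hz _ (by positivity), hz _ (by norm_num), NL_apply]
  unfold xf
  simp only [fw_eq]
  rw [Finset.mul_sum, Finset.mul_sum, Finset.mul_sum, Finset.mul_sum, ← Finset.sum_add_distrib,
    ← Finset.sum_sub_distrib, ← Finset.sum_sub_distrib, ← Finset.sum_add_distrib, ← Finset.sum_add_distrib]
  apply Finset.sum_congr rfl
  intro k _
  have e : Finset.Icc 1 3 = {1, 2, 3} := rfl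
  rw [e]
  rw [Finset.sum_insert (by decide), Finset.sum_insert (by decide), Finset.sum_singleton,
    Finset.sum_insert (by decide), Finset.sum_insert (by decide), Finset.sum_singleton,
    Finset.sum_insert (by decide), Finset.sum_insert (by decide), Finset.sum_singleton,
    Finset.sum_insert (by decide), Finset.sum_insert (by decide), Finset.sum_singleton]
  ring

/-- the line integral -/
lemma line {h : ℕ} (hh : 3 ≤ h) {b : ℚ} (hb0 : 0 < (b : ℝ)) (hb1 : (b : ℝ) < 1) (P : ℚ[X])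
    (hP : P.natDegree + 2 ≤ 6 * h) (Λ : ℕ → ℂ)
    (hΛ : ∀ i ∈ Finset.Icc 1 3, ∀ M : ℕ, 2 ≤ M → Λ i - ((fb b i M : ℚ) : ℂ) =
      -∫ y : ℝ, li ((M : ℝ) - 1 / 2 + (b : ℝ) / 2) y ^ i * ((ker (b : ℝ) y : ℝ) : ℂ)) :
    ∫ y : ℝ, W34.GB.Rc h (ln h (b : ℝ) y) * aeval (ln h (b : ℝ) y) P * ((ker (b : ℝ) y : ℝ) : ℂ) =
      ∑ k ∈ sN h, ∑ i ∈ Finset.Icc 1 3, ((pa (sN h) m3 P k i : ℚ) : ℂ) * (((fb b i (k + W34.GB.KK h) : ℚ) : ℂ) - Λ i) := by
  have hd := deg1 P hP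
  have hK : 1 ≤ W34.GB.KK h := by unfold W34.GB.KK; omega
  have hA : ∀ k ∈ sN h, ((k + W34.GB.KK h : ℕ) : ℝ) - 1 / 2 + (b : ℝ) / 2 = ((W34.GB.KK h : ℝ) - 1 / 2 + (b : ℝ) / 2) + k := by
    intro k _
    push_cast
    ring
  have hA1 : ∀ k ∈ sN h, (1 : ℝ) ≤ ((W34.GB.KK h : ℝ) - 1 / 2 + (b : ℝ) / 2) + k := by
    intro k hk
    have h1 : (1 : ℝ) ≤ k := by exact_mod_cast (Finset.mem_Icc.1 hk).1
    have h2 : (1 : ℝ) ≤ W34.GB.KK h := by exact_mod_cast hK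
    linarith
  set c : ℝ := (W34.GB.KK h : ℝ) - 1 / 2 + (b : ℝ) / 2 with hc
  have hint : ∀ y : ℝ, W34.GB.Rc h (ln h (b : ℝ) y) * aeval (ln h (b : ℝ) y) P * ((ker (b : ℝ) y : ℝ) : ℂ) =
      ∑ k ∈ sN h, ∑ i ∈ Finset.Icc 1 3, ((pa (sN h) m3 P k i : ℚ) : ℂ) *
        (li (c + k) y ^ i * ((ker (b : ℝ) y : ℝ) : ℂ)) := by
    intro y
    have e : ∀ k : ℕ, ln h (b : ℝ) y + (k : ℂ) = ((c + k : ℝ) : ℂ) + y * I := by
      intro k
      unfold ln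
      rw [← hc]
      push_cast; ring
    have hz : ∀ k ∈ sN h, ln h (b : ℝ) y + (k : ℂ) ≠ 0 := by
      intro k hk
      rw [e]
      exact lf_ne (by have := hA1 k hk; linarith) y
    have h1 := pf3 (sN h) P hd (ln h (b : ℝ) y) hz
    have h2 : aeval (ln h (b : ℝ) y) (QQ (sN h) m3) = (∏ k ∈ Finset.Icc 1 (2 * h), (ln h (b : ℝ) y + k)) ^ 3 := by
      unfold QQ m3 sN
      rw [map_prod, ← Finset.prod_pow]
      apply Finset.prod_congr rfl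
      intro m _
      rw [map_pow, map_add, aeval_X, aeval_C]
      simp
    have h3 : W34.GB.Rc h (ln h (b : ℝ) y) * aeval (ln h (b : ℝ) y) P =
        aeval (ln h (b : ℝ) y) P / aeval (ln h (b : ℝ) y) (QQ (sN h) m3) := by
      rw [h2]
      unfold W34.GB.Rc
      ring
    rw [h3, h1, Finset.sum_mul]
    apply Finset.sum_congr rfl
    intro k _
    rw [Finset.sum_mul]
    apply Finset.sum_congr rfl
    intro i _
    rw [e k]
    unfold li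
    ring
  have hI : (∫ y : ℝ, W34.GB.Rc h (ln h (b : ℝ) y) * aeval (ln h (b : ℝ) y) P * ((ker (b : ℝ) y : ℝ) : ℂ)) =
      ∫ y : ℝ, ∑ k ∈ sN h, ∑ i ∈ Finset.Icc 1 3, ((pa (sN h) m3 P k i : ℚ) : ℂ) *
        (li (c + k) y ^ i * ((ker (b : ℝ) y : ℝ) : ℂ)) :=
    integral_congr_ae (Filter.Eventually.of_forall hint)
  have hInt : ∀ k ∈ sN h, ∀ i ∈ Finset.Icc 1 3,
      Integrable (fun y : ℝ => li (c + k) y ^ i * ((ker (b : ℝ) y : ℝ) : ℂ)) := by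
    intro k hk i hi
    have := ker_integrable hb0 hb1 (hA1 k hk) (Finset.mem_Icc.1 hi).1
    simpa only [ker_eq] using this
  rw [hI, integral_finsetSum]
  · apply Finset.sum_congr rfl
    intro k hk
    have hk1 : 1 ≤ k := (Finset.mem_Icc.1 hk).1
    rw [integral_finsetSum _ (fun i hi => (hInt k hk i hi).const_mul _)]
    apply Finset.sum_congr rfl
    intro i hi
    rw [integral_const_mul]
    have a1 := hΛ i hi (k + W34.GB.KK h) (by omega)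
    rw [hA k hk] at a1
    congr 1
    linear_combination a1
  · intro k hk
    apply integrable_finsetSum
    intro i hi
    exact (hInt k hk i hi).const_mul _

/-- **the line formula** -/
theorem t_A1 : A1s := by
  intro h σ w u v P hh hσ hP
  have hσ1 : 0 < (((σ : ℚ) / 4 : ℚ) : ℝ) ∧ (((σ : ℚ) / 4 : ℚ) : ℝ) < 1 := by
    rcases hσ with rfl | rfl <;> constructor <;> norm_num
  have hh1 : 0 < (((1 / 2 : ℚ)) : ℝ) ∧ (((1 / 2 : ℚ)) : ℝ) < 1 := by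
    constructor <;> norm_num
  have hL1 : ∀ i : ℕ, ∃ Λ : ℂ, 1 ≤ i →
      Tendsto (fun m : ℕ => ((fb ((σ : ℚ) / 4) i m : ℚ) : ℂ)) atTop (𝓝 Λ) ∧
      ∀ M : ℕ, 2 ≤ M → Λ - ((fb ((σ : ℚ) / 4) i M : ℚ) : ℂ) =
        -∫ y : ℝ, li ((M : ℝ) - 1 / 2 + (((σ : ℚ) / 4 : ℚ) : ℝ) / 2) y ^ i * ((ker (((σ : ℚ) / 4 : ℚ) : ℝ) y : ℝ) : ℂ) := by
    intro i
    by_cases hi : 1 ≤ i
    · obtain ⟨Λ, hΛ⟩ := lam hσ1.1 hσ1.2 hi
      exact ⟨Λ, fun _ => hΛ⟩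
    · exact ⟨0, fun h => absurd h hi⟩
  have hL2 : ∀ i : ℕ, ∃ Λ : ℂ, 1 ≤ i →
      Tendsto (fun m : ℕ => ((fb (1 / 2) i m : ℚ) : ℂ)) atTop (𝓝 Λ) ∧
      ∀ M : ℕ, 2 ≤ M → Λ - ((fb (1 / 2) i M : ℚ) : ℂ) =
        -∫ y : ℝ, li ((M : ℝ) - 1 / 2 + ((1 / 2 : ℚ) : ℝ) / 2) y ^ i * ((ker ((1 / 2 : ℚ) : ℝ) y : ℝ) : ℂ) := by
    intro i
    by_cases hi : 1 ≤ i
    · obtain ⟨Λ, hΛ⟩ := lam hh1.1 hh1.2 hi
      exact ⟨Λ, fun _ => hΛ⟩
    · exact ⟨0, fun h => absurd h hi⟩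
  choose Λ1 hΛ1 using hL1
  choose Λ2 hΛ2 using hL2
  have hI1 := line hh hσ1.1 hσ1.2 P hP Λ1 (fun i hi => (hΛ1 i (Finset.mem_Icc.1 hi).1).2)
  have hI2 := line hh hh1.1 hh1.2 P hP Λ2 (fun i hi => (hΛ2 i (Finset.mem_Icc.1 hi).1).2)
  have c1 : (((σ : ℚ) / 4 : ℚ) : ℝ) = (σ : ℝ) / 4 := by push_cast; ring
  have c2 : ((1 / 2 : ℚ) : ℝ) = 1 / 2 := by push_cast; ring
  have hT : ∀ i : ℕ, 2 ≤ i → Λ1 i + (w : ℂ) * Λ2 i =
      ((Lth ((σ : ℝ) / 4) i + (w : ℝ) * Lth (1 / 2) i : ℝ) : ℂ) := by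
    intro i hi
    have t1 := tendsto_nhds_unique (hΛ1 i (by omega)).1 (theta_lim hσ1.1 hi)
    have t2 := tendsto_nhds_unique (hΛ2 i (by omega)).1 (theta_lim hh1.1 hi)
    rw [t1, t2, c1, c2]
    push_cast
    ring
  rw [c1] at hI1 hσ1
  rw [c2] at hI2
  have hX : Λ1 2 + (w : ℂ) * Λ2 2 = ((thX σ w : ℝ) : ℂ) := by
    rw [hT 2 le_rfl]
    unfold thX
    rw [th_split hσ1.1 (w : ℝ) le_rfl]
  have hY : Λ1 3 + (w : ℂ) * Λ2 3 = ((thY σ w : ℝ) : ℂ) := by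
    rw [hT 3 (by norm_num)]
    unfold thY
    rw [th_split hσ1.1 (w : ℝ) (by norm_num)]
  have hres := residue_sum (sN h) m3 P (deg2 P hP)
  have hres' : ∑ k ∈ sN h, ((pa (sN h) m3 P k 1 : ℚ) : ℂ) = 0 := by
    rw [← Rat.cast_sum, hres]
    simp
  rw [hI1, hI2, real_form σ w u v P hP]
  set Z := ∑ l ∈ Finset.range (W34.GB.KK h), (Rq h ((l : ℚ) + (σ : ℚ) / 4) * P.eval ((l : ℚ) + (σ : ℚ) / 4) +
      w * (Rq h ((l : ℚ) + 1 / 2) * P.eval ((l : ℚ) + 1 / 2))) with hZ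
  push_cast
  rw [← hX, ← hY]
  have key : ∀ (g : ℕ → ℕ → ℂ) (Λ : ℕ → ℂ), ∑ k ∈ sN h, ∑ i ∈ Finset.Icc 1 3, ((pa (sN h) m3 P k i : ℚ) : ℂ) * (g i k - Λ i) =
      ∑ k ∈ sN h, ∑ i ∈ Finset.Icc 1 3, ((pa (sN h) m3 P k i : ℚ) : ℂ) * g i k -
        Λ 2 * ∑ k ∈ sN h, ((pa (sN h) m3 P k 2 : ℚ) : ℂ) - Λ 3 * ∑ k ∈ sN h, ((pa (sN h) m3 P k 3 : ℚ) : ℂ) := by
    intro g Λ
    have e0 : Λ 1 * ∑ k ∈ sN h, ((pa (sN h) m3 P k 1 : ℚ) : ℂ) = 0 := by rw [hres', mul_zero]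
    rw [← sub_zero (∑ k ∈ sN h, ∑ i ∈ Finset.Icc 1 3, ((pa (sN h) m3 P k i : ℚ) : ℂ) * g i k - _ - _), ← e0,
      Finset.mul_sum, Finset.mul_sum, Finset.mul_sum, ← Finset.sum_sub_distrib, ← Finset.sum_sub_distrib,
      ← Finset.sum_sub_distrib]
    apply Finset.sum_congr rfl
    intro k _
    have e : Finset.Icc 1 3 = {1, 2, 3} := rfl
    rw [e]
    rw [Finset.sum_insert (by decide), Finset.sum_insert (by decide), Finset.sum_singleton,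
      Finset.sum_insert (by decide), Finset.sum_insert (by decide), Finset.sum_singleton]
    ring
  rw [key (fun i k => ((fb ((σ : ℚ) / 4) i (k + W34.GB.KK h) : ℚ) : ℂ)) Λ1,
    key (fun i k => ((fb (1 / 2) i (k + W34.GB.KK h) : ℚ) : ℂ)) Λ2]
  ring

end

end Pool.Agent.W196.GZ
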